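import Pool.Agent.H91.VarExp

set_option autoImplicit false

open H91.VarExp in
theorem Pool.Agent.Results.MP_aae45c_an.NotRegular.result :
    ∃ (p : ℕ → ℝ) (F : Set (ℕ → ℝ)) (x : ℕ → ℝ), (∀ n, 1 ≤ p n) ∧ Cl p F ∧
    x ∈ ell p ∧ x ∉ F ∧ ∀ U V : Set (ℕ → ℝ), U ⊆ ell p → V ⊆ ell p → Cl p (ell p \ U) →
      Cl p (ell p \ V) → x ∈ U → F ⊆ V → (U ∩ V).Nonempty :=
  main
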